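import Pool.Agent.H82.RD.Targets

/-!
# A small integral determinant divisible by a high power of `q` vanishes
-/

open Pool.Agent.H82.RD

namespace Pool.Agent.H1.RD

theorem pf_DPF : T_DPF := by
  intro q _ κ _ _ Z F d Bd N hd hZ hB hdiv hlt
  have hdet : ((Z.det : ℤ) : ℤ_[q]) = (∏ i, (d i : ℤ_[q])) * F.det := by
    have h1 : ((Z.det : ℤ) : ℤ_[q]) = ((Int.castRingHom ℤ_[q]).mapMatrix Z).det :=
      RingHom.map_det (Int.castRingHom ℤ_[q]) Z
    have h2 : (Int.castRingHom ℤ_[q]).mapMatrix Z =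
        Matrix.of fun i j => (d i : ℤ_[q]) * F i j := by
      ext i j
      exact hZ i j
    rw [h1, h2, Matrix.det_mul_column]
  have h2 : ((q : ℤ) ^ N) ∣ Z.det := by
    rw [← PadicInt.pow_p_dvd_int_iff, hdet]
    exact hdiv.mul_left _
  have h3 : |Z.det| ≤ (Nat.factorial (Fintype.card κ) : ℤ) * (Bd : ℤ) ^ Fintype.card κ := by
    have h := Matrix.det_le (A := Z) (abv := AbsoluteValue.abs) (x := (Bd : ℤ)) (fun i j => hB i j)
    rw [nsmul_eq_mul] at h
    exact h
  have h4 : (Nat.factorial (Fintype.card κ) * Bd ^ Fintype.card κ : ℕ) < q ^ N := by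
    refine lt_of_le_of_lt ?_ hlt
    rw [mul_pow]
    exact Nat.mul_le_mul_right _ (Nat.factorial_le_pow _)
  have h5 : Z.det = 0 := by
    apply Int.eq_zero_of_abs_lt_dvd h2
    refine lt_of_le_of_lt h3 ?_
    exact_mod_cast h4
  rw [h5, Int.cast_zero] at hdet
  have h6 : (∏ i, (d i : ℤ_[q])) ≠ 0 := by
    rw [Finset.prod_ne_zero_iff]
    intro i _
    exact Nat.cast_ne_zero.2 (hd i)
  exact (mul_eq_zero.1 hdet.symm).resolve_left h6

end Pool.Agent.H1.RD
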