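import Pool.Agent.H82.RD.Targets

/-!
# Logarithms and a relation
-/

open Pool.Agent.H82.RD

namespace Pool.Agent.H1.RD

lemma prod_log {q e : ℕ} {ζ : ℕ → ℕ} {ι : Type} (I : Finset ι) (l γ : ι → ℕ)
    (hζ : ∀ m : ℕ, m.Coprime q → m ^ ph q ≡ (1 + qh q) ^ ζ m [MOD q ^ e])
    (hl : ∀ i ∈ I, (l i).Coprime q) :
    ((∏ i ∈ I, l i ^ γ i) ^ 2) ^ ph q ≡
      (1 + qh q) ^ (2 * ∑ i ∈ I, γ i * ζ (l i)) [MOD q ^ e] := by
  have h1 : (∏ i ∈ I, l i ^ γ i) ^ ph q ≡ (1 + qh q) ^ (∑ i ∈ I, γ i * ζ (l i)) [MOD q ^ e] := by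
    rw [← Finset.prod_pow, ← Finset.prod_pow_eq_pow_sum]
    apply Nat.ModEq.prod
    intro i hi
    have h2 := (hζ (l i) (hl i hi)).pow (γ i)
    rw [← pow_mul, ← pow_mul] at h2
    rw [← pow_mul, mul_comm (γ i) (ph q), mul_comm (γ i) (ζ (l i))]
    exact h2
  have h3 := h1.pow 2
  rw [← pow_mul, ← pow_mul] at h3
  rw [← pow_mul, mul_comm 2 (ph q), mul_comm 2 (∑ i ∈ I, γ i * ζ (l i))]
  exact h3

theorem pf_LRL (hLDL : T_LDL) : T_LRL := by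
  intro q e ζ ι I l α γ hq hζ hl hrel
  have h1 := prod_log I l γ hζ hl
  have h2 := prod_log I l α hζ hl
  have h3 := hrel.pow (ph q)
  have h4 : (1 + qh q) ^ (2 * ∑ i ∈ I, γ i * ζ (l i)) ≡
      (1 + qh q) ^ (2 * ∑ i ∈ I, α i * ζ (l i)) [MOD q ^ e] := h1.symm.trans (h3.trans h2)
  have h5 := (hLDL q e hq).2.1 _ _ h4
  rcases hq.eq_two_or_odd' with rfl | hodd
  · rcases Nat.lt_or_ge e 3 with he | he
    · rw [show e - 3 = 0 by omega, pow_zero]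
      exact Nat.modEq_one
    · rw [show e - 2 = (e - 3) + 1 by omega, pow_succ, mul_comm (2 ^ (e - 3)) 2] at h5
      exact Nat.ModEq.mul_left_cancel' two_ne_zero h5
  · have hc : Nat.Coprime (q ^ (e - 2)) 2 := by
      apply Nat.Coprime.pow_left
      exact Nat.coprime_two_right.2 hodd
    have h6 := Nat.ModEq.cancel_left_of_coprime hc h5
    exact h6.of_dvd (pow_dvd_pow q (by omega))

end Pool.Agent.H1.RD
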